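import Mathlib
import Pool.Agent.W_MP_9d843c_co.Main

namespace Pool.Agent.Results.MP_9d843c_co.SuperlinearChromatic

/-- Vectors in `{-1, 0, 1}^n` with exactly `k` nonzero coordinates. -/
def SignVec (n k : ℕ) : Type :=
  {v : Fin n → ℤ // (∀ i, v i = -1 ∨ v i = 0 ∨ v i = 1) ∧
    (Finset.univ.filter (fun i => v i ≠ 0)).card = k}

/-- The graph `J_±(n, k, t)`: two distinct vectors are adjacent iff their standard scalar
product equals `t`. -/
def Jpm (n k : ℕ) (t : ℤ) : SimpleGraph (SignVec n k) where
  Adj u v := u ≠ v ∧ ∑ i, u.1 i * v.1 i = t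
  symm := ⟨fun u v h => ⟨h.1.symm, by
    rw [← h.2]
    exact Finset.sum_congr rfl (fun i _ => mul_comm _ _)⟩⟩
  loopless := ⟨fun u h => h.1 rfl⟩

open Pool.Agent.W_MP_9d843c_co

instance finite_signVec (n k : ℕ) : Finite (SignVec n k) := by
  have h : (Set.pi Set.univ (fun _ : Fin n => ({-1, 0, 1} : Set ℤ))).Finite :=
    Set.Finite.pi (fun _ => Set.toFinite _)
  have h2 : {v : Fin n → ℤ | (∀ i, v i = -1 ∨ v i = 0 ∨ v i = 1) ∧
      (Finset.univ.filter (fun i => v i ≠ 0)).card = k}.Finite :=
    h.subset (by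
      intro v hv i _
      rcases hv.1 i with h | h | h <;> simp [h])
  exact h2.to_subtype

lemma alt_mem (n : ℕ) (S : Finset (Fin n)) (hS : S.card = 4) :
    (∀ i, alt S i = -1 ∨ alt S i = 0 ∨ alt S i = 1) ∧
      (Finset.univ.filter (fun i => alt S i ≠ 0)).card = 4 := by
  constructor
  · intro i
    by_cases hi : i ∈ S
    · rcases alt_cases hi with h | h <;> simp [h]
    · simp [alt_of_not_mem hi]
  · rw [← hS]
    congr 1
    ext i
    simp only [Finset.mem_filter, Finset.mem_univ, true_and]
    constructor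
    · intro h
      by_contra hi
      exact h (alt_of_not_mem hi)
    · intro hi h
      rcases alt_cases hi with h' | h' <;> rw [h] at h' <;> simp at h'

lemma ip_self (n : ℕ) (S : Finset (Fin n)) (hS : S.card = 4) : ip S S = 4 := by
  have : ip S S = ∑ x, if x ∈ S then (1 : ℤ) else 0 := by
    unfold ip
    apply Finset.sum_congr rfl
    intro x _
    split_ifs with hx
    · rcases alt_cases hx with h | h <;> simp [h]
    · simp [alt_of_not_mem hx]
  rw [this]
  simp [hS]

/-- Every proper colouring of `J_±(n, 4, 0)` needs at least `n (log_2 n - 34) / 9` colours. -/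
theorem result (n : ℕ) :
    (n : ℝ) * (Real.logb 2 n - 34) / 9 ≤ ((Jpm n 4 0).chromaticNumber.toNat : ℝ) := by
  classical
  rcases Nat.lt_or_ge n 4 with hn4 | hn4
  · have hlog : Real.logb 2 n ≤ 34 := by
      rcases Nat.eq_zero_or_pos n with rfl | hpos
      · simp
      · rw [Real.logb_le_iff_le_rpow (by norm_num) (by exact_mod_cast hpos)]
        have : (n : ℝ) ≤ 4 := by exact_mod_cast hn4.le
        refine le_trans this ?_
        have h34 : ((2 : ℝ) ^ (34 : ℝ)) = 2 ^ (34 : ℕ) := by
          rw [← Real.rpow_natCast]; norm_num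
        rw [h34]; norm_num
    have : (n : ℝ) * (Real.logb 2 n - 34) / 9 ≤ 0 := by
      have h0 : (0 : ℝ) ≤ n := Nat.cast_nonneg n
      have : (n : ℝ) * (Real.logb 2 n - 34) ≤ 0 :=
        mul_nonpos_of_nonneg_of_nonpos h0 (by linarith)
      linarith
    exact le_trans this (Nat.cast_nonneg _)
  · have hcolor := SimpleGraph.colorable_chromaticNumber_of_fintype (Jpm n 4 0)
    set m := (Jpm n 4 0).chromaticNumber.toNat with hm
    obtain ⟨c⟩ := hcolor
    obtain ⟨S₀, _, hS₀⟩ := Finset.exists_subset_card_eq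
      (s := (Finset.univ : Finset (Fin n))) (n := 4) (by simpa using hn4)
    let c₀ : Fin m := c ⟨alt S₀, alt_mem n S₀ hS₀⟩
    let col : Finset (Fin n) → Fin m := fun S =>
      if h : S.card = 4 then c ⟨alt S, alt_mem n S h⟩ else c₀
    have hcol : ∀ S T : Finset (Fin n), S.card = 4 → T.card = 4 → col S = col T → ip S T ≠ 0 := by
      intro S T hS hT hST hip
      simp only [col, hS, hT, dif_pos] at hST
      have hne : (⟨alt S, alt_mem n S hS⟩ : SignVec n 4) ≠ ⟨alt T, alt_mem n T hT⟩ := by
        intro heq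
        have halt : alt S = alt T := congrArg Subtype.val heq
        have : ip S T = ip S S := by
          unfold ip
          rw [halt]
        rw [this, ip_self n S hS] at hip
        norm_num at hip
      exact c.valid (v := ⟨alt S, alt_mem n S hS⟩) (w := ⟨alt T, alt_mem n T hT⟩) ⟨hne, hip⟩ hST
    have hn : 0 < n := by omega
    have hbound := core n m (m / n + 1) hn (Nat.le_add_left 1 _)
      (by
        have := Nat.lt_succ_iff.mp (Nat.lt_succ_of_lt (Nat.lt_mul_div_succ m hn))
        calc m ≤ n * (m / n + 1) := this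
          _ = (m / n + 1) * n := mul_comm _ _) col hcol
    have hnR : (0 : ℝ) < n := by exact_mod_cast hn
    have hlog : Real.logb 2 n ≤ 25 + 9 * ((m / n : ℕ) + 1 : ℝ) := by
      rw [Real.logb_le_iff_le_rpow (by norm_num) hnR]
      have h1 : (n : ℝ) ≤ ((2 ^ (25 + 9 * (m / n + 1)) : ℕ) : ℝ) := by exact_mod_cast hbound
      refine le_trans h1 ?_
      push_cast
      rw [← Real.rpow_natCast]
      push_cast
      exact le_refl _
    have hdiv : ((m / n : ℕ) : ℝ) ≤ (m : ℝ) / n := Nat.cast_div_le
    have h2 : Real.logb 2 n - 34 ≤ 9 * ((m : ℝ) / n) := by linarith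
    calc (n : ℝ) * (Real.logb 2 n - 34) / 9 ≤ (n : ℝ) * (9 * ((m : ℝ) / n)) / 9 := by
          apply div_le_div_of_nonneg_right _ (by norm_num)
          exact mul_le_mul_of_nonneg_left h2 hnR.le
      _ = m := by field_simp

end Pool.Agent.Results.MP_9d843c_co.SuperlinearChromatic
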